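import Pool.Agent.H488.Z.Count
import Pool.Agent.H488.Z.Xi

/-!
# Algebraic levels: the solutions of `ζ(s) = a` and `ξ(s) = a`, `a` an algebraic number near `0`

The question is about the ordinates of the zeros of zeta, the solutions of `ξ(s) = 0` in the upper half-plane. It is
known that the solutions of `ζ(s) = a`, and of `ξ(s) = a`, are algebraically independent for all but countably many `a`.
This says nothing about any given value `a`, and in particular nothing about algebraic values. Here the values are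
algebraic numbers, in any discs and intervals, also near `0` (the zeros) and near critical values, and the points may
have any multiplicity.

Let `K` be a compact set (not containing `1` in the case of zeta, in the upper half-plane in the case of `ξ` and of real
values). The *law of scales* (`ScaleLaw`) for a family of numbers `v(a)`, for instance all the points of `K` with the
value `a`, says: for all `m`, `g`, `d`, `A` and `δ > 0` there are `B`, `C`, `T₀` such that for every number field `F` of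
degree at most `m`, embedded into `ℂ`, all complex `ξ_1, …, ξ_g`, every `T ≥ T₀` and every finite set `X` of elements of
`F` which are quotients of integers with conjugates at most `T`, with mutual distances at most `T^(-δ)`: for all but at
most `C` elements `a` of `X` all polynomials `P` of degree at most `d` in each variable whose coefficients are
combinations of the `ξ_i` with coefficients in `𝓞_F` with conjugates at most `T^A` satisfy
`|P(v(a))| ≥ T^(-B) |every coefficient of P|`. In particular the numbers `v(a)` satisfy no algebraic relation of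
degree at most `d` with such coefficients. (There are about `T^(2 - δ)` rational numbers of height at most `T` in an
interval of length `T^(-δ)`.) The number `C` depends on `K`, `m`, `g`, `d`, `A`, `δ` only.

The law holds for

* the points of `K` at which zeta has the value `a`;
* the real and imaginary parts of the points of `K` at which zeta has the real value `a`;
* the points of `K` at which `ξ` has the value `a`;
* the ordinates (imaginary parts) of the points of `K` at which `ξ` has the real value `a`: for `a = 0` these are the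
  ordinates of zeros of zeta of the question.

For the values `1 / q` it follows (`InverseLaw`) that for all but `O(log log x)` of the positive integers `q ≤ x` the
ordinates of the points of `K` with `ξ(s) = 1 / q` (and similarly the real and imaginary parts of the points with
`ζ(s) = 1 / q`) are quantitatively algebraically independent: for all polynomials `P ≠ 0` of degree at most `d` with
integer coefficients at most `q^A` one has `|P| > q^(-B)`, and this holds even relative to arbitrary complex numbers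
`y_1, …, y_n`, for instance the ordinates of zeros of zeta themselves: if `P` has coefficients in `ℤ[y]`, then
`|P| > q^(-B) |c|` for every coefficient `c ≠ 0` of `P`. The bounds `B` and `C` are independent of `y`.

Proof: near every value `a₀` all solutions in `K` are given by finitely many functions which are analytic in
`w = (a - a₀)^(1/e)`; by the known theorem for generic values these functions and `a` are algebraically independent.
A determinant method for parametrized curves `w ↦ (a₀ + w^e, f_1(w), …, f_k(w))` bounds the number of the values `a`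
at which near relations hold.
-/

set_option autoImplicit false

open NumberField

namespace Pool.Agent.Results.MP_ec260d_nt.AlgebraicLevels

/-- The Riemann xi function: `ξ(s) = (s (s - 1) Λ₀(s) + 1) / 2 = s (s - 1) π^(-s/2) Γ(s/2) ζ(s) / 2`. -/
noncomputable def xi (s : ℂ) : ℂ := (s * (s - 1) * completedRiemannZeta₀ s + 1) / 2

/-- The points of `K` at which `f` has the value `a`. -/
abbrev Pts (f : ℂ → ℂ) (K : Set ℂ) (a : ℂ) : Type := {s : ℂ // s ∈ K ∧ f s = a}

/-- The ordinates (imaginary parts) of the points of `K` at which `f` has the value `a`, each taken once. -/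
abbrev Ords (f : ℂ → ℂ) (K : Set ℂ) (a : ℂ) : Type := {γ : ℝ // ∃ s ∈ K, f s = a ∧ s.im = γ}

/-- The polynomials of degree at most `d` in each variable, all of whose coefficients are of the form `∑ ξ_i ι(c_i)`,
where the `c_i` are integers of the number field `F` all of whose conjugates have absolute value at most `H`. -/
def Adm {σ : Type} {g : ℕ} (F : Type) [Field F] [NumberField F] (ι : F →+* ℂ) (ξ : Fin g → ℂ) (d : ℕ) (H : ℝ)
    (P : MvPolynomial σ ℂ) : Prop :=
  (∀ j, P.degreeOf j ≤ d) ∧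
    ∀ s, ∃ c : Fin g → 𝓞 F, (∀ i (φ : F →+* ℂ), ‖φ (c i)‖ ≤ H) ∧ P.coeff s = ∑ i, ξ i * ι (c i)

/-- The numbers `v` are good: every admissible polynomial takes at them a value of absolute value at least `δ` times
that of each of its coefficients. -/
def Good {σ : Type} {g : ℕ} (F : Type) [Field F] [NumberField F] (ι : F →+* ℂ) (ξ : Fin g → ℂ) (d : ℕ) (H δ : ℝ)
    (v : σ → ℂ) : Prop :=
  ∀ P : MvPolynomial σ ℂ, Adm F ι ξ d H P → ∀ s, δ * ‖P.coeff s‖ ≤ ‖MvPolynomial.aeval v P‖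

/-- The law of scales for the families of numbers `v a`, at the levels `a` in `L`. -/
def ScaleLaw (L : Set ℂ) (σ : ℂ → Type) (v : ∀ a, σ a → ℂ) : Prop :=
  ∀ (m g d : ℕ) (A δ : ℝ), 0 < δ → ∃ (B : ℝ) (C : ℕ) (T₀ : ℝ),
    ∀ (F : Type) [Field F] [NumberField F], Module.finrank ℚ F ≤ m →
    ∀ (ι : F →+* ℂ) (ξ : Fin g → ℂ) (T : ℝ), T₀ ≤ T → ∀ X : Finset F,
      (∀ x ∈ X, ι x ∈ L ∧ ∃ a b : 𝓞 F, b ≠ 0 ∧ (∀ φ : F →+* ℂ, ‖φ a‖ ≤ T ∧ ‖φ b‖ ≤ T) ∧ x = a / b) →
      (∀ x ∈ X, ∀ y ∈ X, ‖ι x - ι y‖ ≤ T ^ (-δ)) →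
      {x : F | x ∈ X ∧ ¬ Good F ι ξ d (T ^ A) (T ^ (-B)) (v (ι x))}.ncard ≤ C

/-- At the level `1 / q` there is a near relation of degree at most `d` and height at most `q ^ A`, relative to the
numbers `y`: a polynomial `P` with coefficients in `ℤ[Y]` such that `|P(y)(v)| ≤ q ^ (-B) |c(y)|` for one of its
coefficients `c` with `c(y) ≠ 0`. -/
def NearRelation {n : ℕ} {σ : ℂ → Type} (v : ∀ a, σ a → ℂ) (y : Fin n → ℂ) (d : ℕ) (A B : ℝ) (q : ℕ) : Prop :=
  ∃ P : MvPolynomial (σ ((q : ℂ)⁻¹)) (MvPolynomial (Fin n) ℤ),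
    (∀ i, P.degreeOf i ≤ d) ∧ (∀ s i, (P.coeff s).degreeOf i ≤ d) ∧
    (∀ s t, |(((P.coeff s).coeff t : ℤ) : ℝ)| ≤ (q : ℝ) ^ A) ∧
    ∃ s, MvPolynomial.aeval y (P.coeff s) ≠ 0 ∧
      ‖MvPolynomial.eval₂ (MvPolynomial.aeval y : MvPolynomial (Fin n) ℤ →ₐ[ℤ] ℂ).toRingHom (v ((q : ℂ)⁻¹)) P‖ ≤
        (q : ℝ) ^ (-B) * ‖MvPolynomial.aeval y (P.coeff s)‖

/-- At most `C (k + 1)` of the levels `1 / q`, `q ≤ 2 ^ (2 ^ k)`, have a near relation. -/
def InverseLaw (σ : ℂ → Type) (v : ∀ a, σ a → ℂ) : Prop :=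
  ∀ (n d : ℕ) (A : ℝ), 0 ≤ A → ∃ (B : ℝ) (C : ℕ), ∀ (y : Fin n → ℂ) (k : ℕ),
    {q : ℕ | 1 ≤ q ∧ q ≤ 2 ^ 2 ^ k ∧ NearRelation v y d A B q}.ncard ≤ C * (k + 1)

/-- the real part (`true`) or the imaginary part (`false`) of a point -/
noncomputable def part {f : ℂ → ℂ} {K : Set ℂ} (a : ℂ) (z : Pts f K a × Bool) : ℂ :=
  ((if z.2 then (z.1 : ℂ).re else (z.1 : ℂ).im : ℝ) : ℂ)

theorem xi_zero_iff (s : ℂ) (hs : 0 < s.im) : xi s = 0 ↔ riemannZeta s = 0 := by
  have h0 : s ≠ 0 := by rintro rfl; simp at hs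
  have h1 : s ≠ 1 := by rintro rfl; simp at hs
  have h1' : (1 : ℂ) - s ≠ 0 := sub_ne_zero.mpr h1.symm
  have h2 : xi s = s * (s - 1) * completedRiemannZeta s / 2 := by
    rw [xi, completedRiemannZeta_eq]
    field_simp
    ring
  have h3 : Complex.Gammaℝ s ≠ 0 := by
    intro h
    rw [Complex.Gammaℝ_eq_zero_iff] at h
    obtain ⟨n, hn⟩ := h
    rw [hn] at hs
    simp at hs
  have h4 := riemannZeta_def_of_ne_zero h0
  have h5 : s * (s - 1) ≠ 0 := mul_ne_zero h0 (sub_ne_zero.mpr h1)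
  rw [h2, h4, div_eq_zero_iff, div_eq_zero_iff, mul_eq_zero]
  constructor
  · rintro ((h | h) | h)
    · exact absurd h h5
    · exact Or.inl h
    · norm_num at h
  · rintro (h | h)
    · exact Or.inl (Or.inr h)
    · exact absurd h h3

theorem scale_of {L : Set ℂ} {σ : ℂ → Type} {v : ∀ a, σ a → ℂ}
    (H : ∀ (m g d : ℕ) (A δ : ℝ), 0 < δ → ∃ (B : ℝ) (C : ℕ) (T₀ : ℝ), 2 ≤ T₀ ∧ 0 ≤ B ∧
      ∀ (F : Type) [Field F] [NumberField F], Module.finrank ℚ F ≤ m →
      ∀ (ι : F →+* ℂ) (ξ : Fin g → ℂ) (T : ℝ), T₀ ≤ T → ∀ Y : Finset F,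
        (∀ x ∈ Y, ι x ∈ L ∧ Y120.HtLe F T x ∧ ∃ P : MvPolynomial (σ (ι x)) ℂ, Adm F ι ξ d (T ^ A) P ∧
          ∃ s₀, P.coeff s₀ ≠ 0 ∧ ‖MvPolynomial.aeval (v (ι x)) P‖ ≤ T ^ (-B) * ‖P.coeff s₀‖) →
        (∀ x ∈ Y, ∀ y ∈ Y, ‖ι x - ι y‖ ≤ T ^ (-δ)) → Y.card ≤ C) : ScaleLaw L σ v := by
  classical
  intro m g d A δ hδ
  obtain ⟨B, C, T₀, hT₀, hB, hH⟩ := H m g d A δ hδ
  refine ⟨B, C, T₀, fun F _ _ hm ι ξ T hT X hX hXd => ?_⟩
  have hTp : 0 < T := by linarith
  set Y : Finset F := X.filter fun x => ¬ Good F ι ξ d (T ^ A) (T ^ (-B)) (v (ι x)) with hY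
  have h1 : {x : F | x ∈ X ∧ ¬ Good F ι ξ d (T ^ A) (T ^ (-B)) (v (ι x))} = (Y : Set F) := by
    ext x
    simp [hY]
  rw [h1, Set.ncard_coe_finset]
  refine hH F hm ι ξ T hT Y (fun x hx => ?_) fun x hx y hy =>
    hXd x (Finset.mem_filter.1 hx).1 y (Finset.mem_filter.1 hy).1
  obtain ⟨hxX, hbad⟩ := Finset.mem_filter.1 hx
  obtain ⟨hxL, a, b, hb, hab, hxab⟩ := hX x hxX
  refine ⟨hxL, ⟨a, b, hb, Y120.house_le F hTp.le fun φ => (hab φ).1, Y120.house_le F hTp.le fun φ => (hab φ).2, hxab⟩, ?_⟩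
  unfold Good at hbad
  push Not at hbad
  obtain ⟨P, hP, s, hs⟩ := hbad
  refine ⟨P, hP, s, ?_, hs.le⟩
  intro h0
  rw [h0, norm_zero, mul_zero] at hs
  exact absurd hs (not_lt.2 (norm_nonneg _))

theorem inverse_of {σ : ℂ → Type} {v : ∀ a, σ a → ℂ}
    (H : ∀ (m g d : ℕ) (A δ : ℝ), 0 < δ → ∃ (B : ℝ) (C : ℕ) (T₀ : ℝ), 2 ≤ T₀ ∧ 0 ≤ B ∧
      ∀ (F : Type) [Field F] [NumberField F], Module.finrank ℚ F ≤ m →
      ∀ (ι : F →+* ℂ) (ξ : Fin g → ℂ) (T : ℝ), T₀ ≤ T → ∀ Y : Finset F,
        (∀ x ∈ Y, (ι x).im = 0 ∧ Y120.HtLe F T x ∧ ∃ P : MvPolynomial (σ (ι x)) ℂ, Adm F ι ξ d (T ^ A) P ∧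
          ∃ s₀, P.coeff s₀ ≠ 0 ∧ ‖MvPolynomial.aeval (v (ι x)) P‖ ≤ T ^ (-B) * ‖P.coeff s₀‖) →
        (∀ x ∈ Y, ∀ y ∈ Y, ‖ι x - ι y‖ ≤ T ^ (-δ)) → Y.card ≤ C) : InverseLaw σ v := by
  intro n d A hA
  obtain ⟨B, C, hB, h⟩ := Pool.Agent.H488.Z.count_inv v d A hA n (by
    obtain ⟨B, C, T₀, hT₀, hB, hH⟩ := H 1 (Fintype.card (Fin n → Fin (d + 1))) d A (1 / 4) (by norm_num)
    exact ⟨B, C, T₀, hT₀, hB, fun ξ T hT Y hY hYd =>
      hH ℚ (by rw [Module.finrank_self]) (algebraMap ℚ ℂ) ξ T hT Y hY hYd⟩)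
  exact ⟨B, C, h⟩

/-- (1) The law of scales holds for the points of a compact set `K`, `1 ∉ K`, at which zeta has a given value. (2) If `K`
is in the upper half-plane, it holds for the real and imaginary parts of the points of `K` at which zeta has a given real
value; at most `C (k + 1)` of the values `1 / q`, `q ≤ 2 ^ (2 ^ k)`, have a near relation between these numbers. (3) The
law holds for the points of `K` in the upper half-plane at which `ξ` has a given value. (4) It holds for the ordinates of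
the points of `K` at which `ξ` has a given real value; at most `C (k + 1)` of the values `1 / q`, `q ≤ 2 ^ (2 ^ k)`, have
a near relation between the ordinates. (5) In the upper half-plane the zeros of `ξ` are those of zeta. -/
theorem result :
    (∀ K : Set ℂ, IsCompact K → (1 : ℂ) ∉ K →
      ScaleLaw Set.univ (fun a => Pts riemannZeta K a) (fun _ s => (s : ℂ))) ∧
    (∀ K : Set ℂ, IsCompact K → (∀ s ∈ K, 0 < s.im) →
      ScaleLaw {a | a.im = 0} (fun a => Pts riemannZeta K a × Bool) part ∧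
      InverseLaw (fun a => Pts riemannZeta K a × Bool) part) ∧
    (∀ K : Set ℂ, IsCompact K → (∀ s ∈ K, 0 < s.im) →
      ScaleLaw Set.univ (fun a => Pts xi K a) (fun _ s => (s : ℂ))) ∧
    (∀ K : Set ℂ, IsCompact K → (∀ s ∈ K, 0 < s.im) →
      ScaleLaw {a | a.im = 0} (fun a => Ords xi K a) (fun _ γ => ((γ : ℝ) : ℂ)) ∧
      InverseLaw (fun a => Ords xi K a) (fun _ γ => ((γ : ℝ) : ℂ))) ∧
    ∀ s : ℂ, 0 < s.im → (xi s = 0 ↔ riemannZeta s = 0) := by
  refine ⟨fun K hK h1 => ?_, fun K hK hKi => ?_, fun K hK hKi => ?_, fun K hK hKi => ?_, xi_zero_iff⟩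
  · refine scale_of fun m g d A δ hδ => ?_
    obtain ⟨B, C, T₀, hT₀, hB, H⟩ := Pool.Agent.H488.Z.level_bad isOpen_compl_singleton Pool.Agent.H488.Z.zeta_an
      Pool.Agent.H488.Z.zeta_nc Pool.Agent.H488.Z.zeta_gen hK (fun s hs h => h1 (h ▸ hs)) m g d A δ hδ
    exact ⟨B, C, T₀, hT₀, hB, fun F _ _ hm ι ξ T hT Y hY hYd => H F hm ι ξ T hT Y (fun x hx => (hY x hx).2) hYd⟩
  · have hlev := fun (m g d : ℕ) (A δ : ℝ) (hδ : 0 < δ) => Pool.Agent.H488.Z.level_real
      (isOpen_compl_singleton (x := (1 : ℂ))) Pool.Agent.H488.Z.zeta_an Pool.Agent.H488.Z.zeta_nc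
      Pool.Agent.H488.Z.zeta_gen hK
      (fun s hs => ⟨fun h => by
        have h2 := hKi s hs
        rw [Set.mem_singleton_iff.1 h] at h2
        simp at h2, fun h => by
        have h2 := hKi s hs
        have h3 := congrArg Complex.im (Set.mem_singleton_iff.1 h)
        rw [Complex.conj_im, Complex.one_im] at h3
        linarith⟩) hKi (fun s _ => Pool.Agent.H488.Z.zeta_conj s) m g d A δ hδ
    refine ⟨scale_of fun m g d A δ hδ => ?_, inverse_of fun m g d A δ hδ => ?_⟩
    · obtain ⟨B, C, T₀, hT₀, hB, H⟩ := hlev m g d A δ hδ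
      exact ⟨B, C, T₀, hT₀, hB, fun F _ _ hm ι ξ T hT Y hY hYd => H F hm ι ξ T hT Y hY hYd⟩
    · obtain ⟨B, C, T₀, hT₀, hB, H⟩ := hlev m g d A δ hδ
      exact ⟨B, C, T₀, hT₀, hB, fun F _ _ hm ι ξ T hT Y hY hYd => H F hm ι ξ T hT Y hY hYd⟩
  · refine scale_of fun m g d A δ hδ => ?_
    obtain ⟨B, C, T₀, hT₀, hB, H⟩ := Pool.Agent.H488.Z.level_bad Pool.Agent.H488.Z.isOpen_up
      (fun z _ => Pool.Agent.H488.Z.xi_diff.analyticAt z)
      Pool.Agent.H488.Z.xi_nc Pool.Agent.H488.Z.xi_gen hK hKi m g d A δ hδ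
    exact ⟨B, C, T₀, hT₀, hB, fun F _ _ hm ι ξ T hT Y hY hYd => H F hm ι ξ T hT Y (fun x hx => (hY x hx).2) hYd⟩
  · have hlev := fun (m g d : ℕ) (A δ : ℝ) (hδ : 0 < δ) => Pool.Agent.H488.Z.level_sym Pool.Agent.H488.Z.isOpen_up
      (fun z _ => Pool.Agent.H488.Z.xi_diff.analyticAt z)
      Pool.Agent.H488.Z.xi_nc Pool.Agent.H488.Z.xi_gen hK
      (fun s hs => ⟨hKi s hs, by
        change 0 < (Pool.Agent.H488.Z.refl s).im
        rw [Pool.Agent.H488.Z.refl_im]
        exact hKi s hs⟩) (fun s _ => Pool.Agent.H488.Z.xi_refl s) m g d A δ hδ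
    refine ⟨scale_of fun m g d A δ hδ => ?_, inverse_of fun m g d A δ hδ => ?_⟩
    · obtain ⟨B, C, T₀, hT₀, hB, H⟩ := hlev m g d A δ hδ
      exact ⟨B, C, T₀, hT₀, hB, fun F _ _ hm ι ξ T hT Y hY hYd => H F hm ι ξ T hT Y hY hYd⟩
    · obtain ⟨B, C, T₀, hT₀, hB, H⟩ := hlev m g d A δ hδ
      exact ⟨B, C, T₀, hT₀, hB, fun F _ _ hm ι ξ T hT Y hY hYd => H F hm ι ξ T hT Y hY hYd⟩

end Pool.Agent.Results.MP_ec260d_nt.AlgebraicLevels
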