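import Pool.Agent.H203.GE.ENI

/-!
# Zeros of L-functions near algebraically related heights are asymptotically independent (unconditional)

No hypothesis on the zeros is made: zeros are counted with multiplicity, wherever they lie in the strip.

Let `P_1, ..., P_k` be finite sums `∑ a_e t^e` with real exponents `e > 0` and rational coefficients (for instance
polynomials without constant term), with positive leading coefficients, let `τ_j` be real, `χ_j` primitive Dirichlet
characters (`q = 1`: the zeta function), `f_j` test functions and `h_j = h_j(T)` scales between the mean spacing and `1`.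
For random `t` in `[T, 2T]` the vector of the centred linear statistics
`∑_ρ f_j ((γ - P_j(t) - τ_j) / h_j)` of the zeros `ρ = β + iγ` of `L(s, χ_j)` near the height `P_j(t) + τ_j` converges in law to a
centred Gaussian vector.  The covariance of the components `i` and `j` vanishes unless `P_i = P_j`, `τ_i = τ_j`, `χ_i = χ_j` and
`h_i = h_j`, and then it is `(1/2π²) ∫_0^∞ ξ Re (f̂_i conj f̂_j) dξ`, the value predicted by the sine kernel.

If the exponents are at most one, the same holds when `t` is replaced by the ordinate of a random zero of `L(s, χ₀)`, with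
ordinate in `(T, 2T]`, for any primitive `χ₀`: for instance the zeros of zeta near `γ`, `2γ`, `γ/3`, `√γ`, `γ + √γ`, where `γ` is the
ordinate of a random zero of zeta, are asymptotically independent, and they behave as near random real points.
-/

open Complex Filter Topology Set MeasureTheory ProbabilityTheory
open scoped BoundedContinuousFunction

namespace Pool.Agent.Results.MP_ec260d_nt.ZerosAtAlgebraicHeights

/-- a primitive Dirichlet character; the character modulo `1` gives the zeta function -/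
structure PChar where
  q : ℕ
  ne : NeZero q
  χ : DirichletCharacter ℂ q
  prim : χ.IsPrimitive

/-- `L(s, χ)` -/
noncomputable def PChar.L (c : PChar) : ℂ → ℂ :=
  have := c.ne
  DirichletCharacter.LFunction c.χ

/-- the values of the character at the integers -/
noncomputable def PChar.val (c : PChar) (m : ℕ) : ℂ := c.χ (m : ZMod c.q)

/-- the nontrivial zeros -/
def zeros (L : ℂ → ℂ) : Set ℂ := {s : ℂ | L s = 0 ∧ 0 < s.re ∧ s.re < 1}

/-- the nontrivial zeros with ordinate in `(T, 2T]` -/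
def window (L : ℂ → ℂ) (T : ℝ) : Set ℂ := {s : ℂ | 0 < s.re ∧ s.re < 1 ∧ T < s.im ∧ s.im ≤ 2 * T ∧ L s = 0}

/-- multiplicity of a zero -/
noncomputable def mult (L : ℂ → ℂ) (s : ℂ) : ℕ := analyticOrderNatAt L s

/-- the sum `∑_e a_e t^e` -/
noncomputable def eval (a : ℝ →₀ ℚ) (t : ℝ) : ℝ := a.sum fun e c => (c : ℝ) * t ^ e

/-- the largest exponent -/
noncomputable def degree (a : ℝ →₀ ℚ) : ℝ := if h : a.support.Nonempty then a.support.max' h else 0

/-- the exponents are positive and the leading coefficient is positive -/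
structure IsHeight (a : ℝ →₀ ℚ) : Prop where
  exponents : ∀ e ∈ a.support, 0 < e
  leading : 0 < a (degree a)

/-- the data: characters, heights `P_j + τ_j`, test functions, scales -/
structure Family (k : ℕ) where
  χ : Fin k → PChar
  P : Fin k → ℝ →₀ ℚ
  τ : Fin k → ℝ
  f : Fin k → ℝ → ℝ
  h : Fin k → ℝ → ℝ

/-- the hypotheses -/
structure Family.Good {k : ℕ} (F : Family k) : Prop where
  height : ∀ j, IsHeight (F.P j)
  smooth : ∀ j, ContDiff ℝ 2 (F.f j)
  compact : ∀ j, HasCompactSupport (F.f j)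
  zero : ∀ j, Tendsto (F.h j) atTop (𝓝 0)
  infty : ∀ j, Tendsto (fun T => F.h j T * Real.log T) atTop atTop
  sep : ∀ i j, F.h i ≠ F.h j →
    Tendsto (fun T => F.h i T / F.h j T) atTop (𝓝 0) ∨ Tendsto (fun T => F.h j T / F.h i T) atTop (𝓝 0)

/-- the vector of the linear statistics at the parameter `t`, centred by the mean density `log (T ^ degree) / 2π` -/
noncomputable def Family.stat {k : ℕ} (F : Family k) (T t : ℝ) : EuclideanSpace ℝ (Fin k) :=
  WithLp.toLp 2 fun j => (∑ᶠ s ∈ zeros (F.χ j).L, (mult (F.χ j).L s : ℝ) *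
    F.f j ((s.im - (eval (F.P j) t + F.τ j)) / F.h j T)) -
      F.h j T * (degree (F.P j) * Real.log T) / (2 * Real.pi) * ∫ x : ℝ, F.f j x

/-- the Fourier transform `∫ f(x) e^{-iξx} dx` -/
noncomputable def ft (f : ℝ → ℝ) (ξ : ℝ) : ℂ := ∫ x : ℝ, (f x : ℂ) * cexp (-(((ξ * x : ℝ) : ℂ) * I))

/-- the covariance predicted by the sine kernel -/
noncomputable def cov (f g : ℝ → ℝ) : ℝ :=
  1 / (2 * Real.pi ^ 2) * ∫ ξ in Ioi (0 : ℝ), ξ * (ft f ξ * (starRingEnd ℂ) (ft g ξ)).re

open Classical in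
/-- the covariance matrix -/
noncomputable def Family.cov {k : ℕ} (F : Family k) : Matrix (Fin k) (Fin k) ℝ :=
  Matrix.of fun i j => if F.P i = F.P j ∧ (∀ m : ℕ, (F.χ i).val m = (F.χ j).val m) ∧ F.τ i = F.τ j ∧ F.h i = F.h j then
    ZerosAtAlgebraicHeights.cov (F.f i) (F.f j) else 0

open Pool.Agent.H203.GE Pool.Agent.H203.GE.ENGL

/-- the set of all exponents -/
noncomputable def Family.S {k : ℕ} (F : Family k) : Finset ℝ := Finset.univ.biUnion fun j => (F.P j).support

/-- the exponents in increasing order -/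
noncomputable def Family.e {k : ℕ} (F : Family k) : Fin F.S.card ↪o ℝ := F.S.orderEmbOfFin rfl

lemma e_range {k : ℕ} (F : Family k) {x : ℝ} (hx : x ∈ F.S) : ∃ i, F.e i = x := by
  have h := Finset.range_orderEmbOfFin F.S rfl
  have h2 : x ∈ Set.range (F.S.orderEmbOfFin rfl) := by rw [h]; exact hx
  exact h2

lemma e_mem {k : ℕ} (F : Family k) (i : Fin F.S.card) : F.e i ∈ F.S := Finset.orderEmbOfFin_mem F.S rfl i

lemma supp_S {k : ℕ} (F : Family k) (j : Fin k) : (F.P j).support ⊆ F.S :=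
  Finset.subset_biUnion_of_mem (fun j => (F.P j).support) (Finset.mem_univ j)

/-- the internal form of the data -/
noncomputable def Family.dt {k : ℕ} (F : Family k) : Dt k 1 F.S.card where
  q := fun j => (F.χ j).q
  nz := fun j => (F.χ j).ne
  χ := fun j => (F.χ j).χ
  e := F.e
  A := fun j _ i => F.P j (F.e i)
  τ := F.τ
  f := F.f
  h := F.h
  E := fun j => degree (F.P j)

lemma eval_eq {k : ℕ} (F : Family k) (j : Fin k) (t : ℝ) :
    eval (F.P j) t = ∑ i, (F.P j (F.e i) : ℝ) * t ^ (F.e i) := by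
  unfold eval Finsupp.sum
  rw [Finset.sum_subset (supp_S F j) (fun x _ hx => by rw [Finsupp.notMem_support_iff.1 hx]; simp)]
  have h1 : F.S = Finset.univ.map F.e.toEmbedding := by
    ext x
    rw [Finset.mem_map]
    constructor
    · intro hx
      obtain ⟨i, hi⟩ := e_range F hx
      exact ⟨i, Finset.mem_univ _, hi⟩
    · rintro ⟨i, -, rfl⟩
      exact e_mem F i
  conv_lhs => rw [h1]
  rw [Finset.sum_map]
  rfl

lemma degree_mem {a : ℝ →₀ ℚ} (h : IsHeight a) : degree a ∈ a.support := Finsupp.mem_support_iff.2 h.leading.ne'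

lemma le_degree {a : ℝ →₀ ℚ} {e : ℝ} (he : e ∈ a.support) : e ≤ degree a := by
  unfold degree
  rw [dif_pos ⟨e, he⟩]
  exact Finset.le_max' _ _ he

lemma H_eq {k : ℕ} (F : Family k) (j : Fin k) (t : Fin 1 → ℝ) : F.dt.H j t = eval (F.P j) (t 0) + F.τ j := by
  rw [eval_eq]
  unfold Dt.H HH
  simp only [Fin.sum_univ_one]
  rfl

lemma ok {k : ℕ} {F : Family k} (hF : F.Good) : Ok F.dt where
  prim := fun j => (F.χ j).prim
  epos := fun i => by
    obtain ⟨j, -, hj⟩ := Finset.mem_biUnion.1 (e_mem F i)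
    exact (hF.height j).exponents _ hj
  emono := F.e.strictMono
  Epos := fun j => (hF.height j).exponents _ (degree_mem (hF.height j))
  cd := hF.smooth
  cs := hF.compact
  sc := ⟨hF.zero, hF.infty, hF.sep⟩
  ht := by
    refine common fun j => ?_
    obtain ⟨d₀, hd₀⟩ := e_range F (supp_S F j (degree_mem (hF.height j)))
    have h1 := t_HTP F.S.card F.e (fun i => by
      obtain ⟨j, -, hj⟩ := Finset.mem_biUnion.1 (e_mem F i)
      exact (hF.height j).exponents _ hj) F.e.strictMono (fun _ i => F.P j (F.e i)) (F.τ j) d₀ (by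
        rw [hd₀]; exact (hF.height j).leading) (fun d hd => by
        by_contra hne
        have h2 := le_degree (Finsupp.mem_support_iff.2 hne)
        rw [← hd₀] at h2
        exact absurd (F.e.strictMono hd) (not_lt.2 h2))
    rw [hd₀] at h1
    exact h1

lemma cM_eq {k : ℕ} (F : Family k) : F.dt.cM = F.cov := by
  ext i j
  unfold Dt.cM Family.cov
  simp only [Matrix.of_apply]
  have h1 : F.dt.A i = F.dt.A j ↔ F.P i = F.P j := by
    constructor
    · intro h
      ext x
      by_cases hx : x ∈ F.S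
      · obtain ⟨l, rfl⟩ := e_range F hx
        exact congrFun (congrFun h 0) l
      · rw [Finsupp.notMem_support_iff.1 (fun h => hx (supp_S F i h)),
          Finsupp.notMem_support_iff.1 (fun h => hx (supp_S F j h))]
    · intro h
      funext _ l
      show F.P i (F.e l) = F.P j (F.e l)
      rw [h]
  have h2 : (F.dt.A i = F.dt.A j ∧ (∀ m : ℕ, F.dt.χ i m = F.dt.χ j m) ∧ F.dt.τ i = F.dt.τ j ∧ F.dt.h i = F.dt.h j) ↔
      (F.P i = F.P j ∧ (∀ m : ℕ, (F.χ i).val m = (F.χ j).val m) ∧ F.τ i = F.τ j ∧ F.h i = F.h j) := by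
    rw [h1]
    rfl
  by_cases hc : F.P i = F.P j ∧ (∀ m : ℕ, (F.χ i).val m = (F.χ j).val m) ∧ F.τ i = F.τ j ∧ F.h i = F.h j
  · rw [if_pos hc]
    exact if_pos (h2.2 hc)
  · rw [if_neg hc]
    exact if_neg (fun h => hc (h2.1 h))

lemma Xv_eq {k : ℕ} {F : Family k} {T : ℝ} (hT : 0 < T) (hh : ∀ j, 0 < F.h j T) (t : Fin 1 → ℝ) :
    F.dt.Xv T t = F.stat T (t 0) := by
  unfold Dt.Xv Family.stat
  congr 1
  funext j
  rw [X_eq F.dt hT j (hh j) t, H_eq]
  rfl

lemma good_pos {k : ℕ} {F : Family k} (hF : F.Good) : ∀ᶠ T in atTop, ∀ j, 0 < F.h j T :=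
  Pool.Agent.H203.ME.FINL.pos (ok hF).sc

/-- **Zeros of L-functions near polynomially related heights are asymptotically independent.** -/
theorem result {k : ℕ} (F : Family k) (hF : F.Good) :
    F.cov.PosSemidef ∧
    (∀ φ : EuclideanSpace ℝ (Fin k) →ᵇ ℝ,
      Tendsto (fun T : ℝ => 1 / T * ∫ t in T..(2 * T), φ (F.stat T t)) atTop
        (𝓝 (∫ x, φ x ∂(multivariateGaussian 0 F.cov)))) ∧
    ((∀ j, ContDiff ℝ 3 (F.f j)) → (∀ j, degree (F.P j) ≤ 1) → ∀ (χ₀ : PChar) (φ : EuclideanSpace ℝ (Fin k) →ᵇ ℝ),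
      Tendsto (fun T : ℝ => (∑ᶠ ρ ∈ window χ₀.L T, (mult χ₀.L ρ : ℝ) * φ (F.stat T ρ.im)) /
        (∑ᶠ ρ ∈ window χ₀.L T, (mult χ₀.L ρ : ℝ))) atTop (𝓝 (∫ x, φ x ∂(multivariateGaussian 0 F.cov)))) := by
  have hok := ok hF
  rw [← cM_eq]
  refine ⟨cM_psd t_CLA p_MOV p_APN F.dt hok, fun φ => ?_, fun h3 hdeg χ₀ φ => ?_⟩
  · refine (lawA t_CLA F.dt hok φ).congr' ?_
    filter_upwards [good_pos hF, eventually_gt_atTop (0 : ℝ)] with T h1 h2
    have h4 := (measurePreserving_funUnique (mT T) (Fin 1)).integral_comp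
      (MeasurableEquiv.funUnique (Fin 1) ℝ).measurableEmbedding (fun s => φ (F.stat T s))
    rw [← int_mT h2, ← h4]
    congr 1
    funext t
    rw [Xv_eq h2 h1]
    rfl
  · have := χ₀.ne
    have hL : Lf χ₀.L (fun m : ℕ => χ₀.χ m) := t_LFX χ₀.q χ₀.χ χ₀.prim
    refine (lawB t_CLA F.dt hok h3 hdeg (fun _ => χ₀.L) (fun _ m => χ₀.χ m) (fun _ => hL)
      (fun _ T => mZ χ₀.L T) (fun _ _ => Or.inr rfl) φ).congr' ?_
    filter_upwards [good_pos hF, eventually_ge_atTop (1 : ℝ)] with T h1 h2
    have h4 := (measurePreserving_funUnique (mZ χ₀.L T) (Fin 1)).integral_comp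
      (MeasurableEquiv.funUnique (Fin 1) ℝ).measurableEmbedding (fun s => φ (F.stat T s))
    have h5 := int_mZ hL.good h2 (fun s => φ (F.stat T s))
    have h6 : (∑ᶠ ρ ∈ window χ₀.L T, (mult χ₀.L ρ : ℝ) * φ (F.stat T ρ.im)) /
        (∑ᶠ ρ ∈ window χ₀.L T, (mult χ₀.L ρ : ℝ)) = ∫ s, φ (F.stat T s) ∂(mZ χ₀.L T) := h5.symm
    rw [h6, ← h4]
    congr 1
    funext t
    rw [Xv_eq (by linarith) h1]
    rfl

end Pool.Agent.Results.MP_ec260d_nt.ZerosAtAlgebraicHeights
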